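import Mathlib
import Pool.Agent.NPC.Defs
import Pool.Agent.H559R3.UDefs
import Pool.Agent.H670NU.Defs
import Pool.Agent.H670NU.Main

/-!
# An explicit language without quasilinear-size circuits of compressible description

Let `σ` be a nondecreasing function between a root of `log n` and `n ^ (1 - 1 / e)`. For every `k`
some language in `NP` has no circuits of size `O(n * σ n ^ k)` whose descriptions can be computed in
polynomial time with one round of parallel queries to an `NP` language and with `n / σ n` bits of
advice. (A circuit of linear size has a description of `O(n log n)` bits, so with `n * σ n` bits of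
advice there would be no condition on the circuits.)

The proof is in the helper modules `H559R3` and `H670NU` (by earlier helpers): a chain of
diagonal languages, each of which contains the questions about the descriptions of the circuits for
the preceding one.
-/

namespace Pool.Agent.Results.MP_22d2c8_lc.CompressibleCircuits

open Pool.Agent.NPC Pool.Agent.NPC.H559U Pool.Agent.H670NU

theorem result (σ : ℕ → ℕ) (hσ : Monotone σ) (t e : ℕ)
    (hσ1 : ∀ᶠ n in Filter.atTop, Nat.log 2 n ≤ σ n ^ t)
    (hσ2 : ∀ᶠ n in Filter.atTop, σ n ^ e * n ≤ n ^ e) (k : ℕ) :
    ∃ L, InNP L ∧ ∀ a : ℕ → ℕ, (∀ᶠ n in Filter.atTop, a n * σ n ≤ n) → ∀ c,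
      ¬ HasParallelNPCircuits a (fun n => c * (n * σ n ^ k)) L :=
  main_par σ hσ t e hσ1 hσ2 k

end Pool.Agent.Results.MP_22d2c8_lc.CompressibleCircuits
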