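import Pool.Agent.W896.MO.IntMul

/-!
# Multiplication is hard for algorithms with a sublinear memory and a stack

The problem asks for an explicit function with superlinear circuits, and whether the multiplication
of integers has linear-size circuits is open as well. Here the multiplication of polynomials over a
finite field and the multiplication of integers, which are explicit functions, are shown to be hard
for a general (non-uniform, randomised) model with a small memory.

The model is a non-uniform randomised algorithm with a memory of `log₂ s` bits (`s` nodes) and, in
addition, a stack (pushdown store) of unlimited height, on which arbitrary symbols can be put; so
recursion is free. All computations and all operations on the stack are free of charge. The only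
thing that is counted is the number `T` of the reads of inputs and of the writes of outputs.

The first part says that the product of two random polynomials with `n` coefficients each, over a
finite field with `q` elements, cannot be computed, even with probability `2 ^ (- π)` only, unless
`T * (log₂ s + π + log₂ q) ≥ 2 ^ (-22) * n ^ 2 * log₂ q`. So time `O (n)` needs a memory of order
`n`, and time `O (n ^ (2 - ε))` needs a memory of order `n ^ ε`, besides the stack. The second part
says that the same is true for the product of two integers with `n` binary digits each, up to a
factor `(log n) ^ 2`.

Proof. A computation is cut into pieces: by an induction on the nesting of the pushes and pops it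
is covered by `O (T / n)` procedures with at most `n / 64` reads and writes and at most four holes,
in which a part of the computation that begins and ends at the same height of the stack has been
left out; only the entry and exit nodes of the holes are kept. Hence the number of procedures which
can occur is only a polynomial in `s` and `T`. The first polynomial and the higher half of the
second one are fixed; the middle coefficients of the product are then given by a Toeplitz matrix
applied to the lower half of the second polynomial. For almost all first polynomials this matrix
has the property that after removing any `n / 64` columns any `K` of its rows have rank at least
`K / 16`: otherwise a nontrivial combination of at most `(n / 2 + 15) / 16` rows vanishes outside of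
the removed columns, and for given coefficients and columns this happens only for a fraction
`q ^ (- n / 2 + n / 64)` of the polynomials. So every fixed procedure outputs `K` correct
coefficients with probability at most `q ^ (- K / 16)`. The second part follows from the first one
for the field with two elements by spacing out the digits.
-/

set_option autoImplicit false

namespace Pool.Agent.Results.MP_22d2c8_lc.ConvolutionStack

open Pool.Agent.W896.MO

/-- First part: let `F` be a finite field and let `P r` be programs with a stack, with at most `s`
nodes each, such that with probability at least `2 ^ (- π)` over a random `r` and a random pair of
polynomials over `F` with `n` coefficients each the program `P r` computes the coefficients of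
their product with at most `T` reads and writes. Then
`n² log₂ |F| ≤ 2 ^ 22 * T * (log₂ s + π + log₂ |F|)`.

Second part: let `P r` be programs with a stack, with at most `s` nodes each, such that for every
pair of integers with `n` binary digits each the probability over a random `r` that `P r` computes
the digits of their product with at most `T` reads and writes is at least `2 ^ (- π)`. Then
`n² ≤ 2 ^ 24 * (⌊log₂ n⌋ + 1)² * T * (log₂ s + π + 1)`. -/
theorem result (n T π s : ℕ) (R : Type) [Fintype R] [Nonempty R] :
    (∀ (F : Type) [Field F] [Fintype F] (P : R → Prog (Fin n ⊕ Fin n) (Fin (2 * n)) F),
      (∀ r, Fintype.card (P r).State ≤ s) →
      Nat.card R * Fintype.card F ^ (2 * n) ≤ 2 ^ π *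
        Nat.card {u : R × (Fin n ⊕ Fin n → F) // (P u.1).Computes u.2 (pm u.2) T} →
      (n : ℝ) ^ 2 * Real.logb 2 (Fintype.card F) ≤
        2 ^ 22 * T * (Real.logb 2 s + π + Real.logb 2 (Fintype.card F))) ∧
    (∀ P : R → Prog (Fin n ⊕ Fin n) (Fin (2 * n)) Bool,
      (∀ r, Fintype.card (P r).State ≤ s) →
      (∀ u, Nat.card R ≤ 2 ^ π * Nat.card {r // (P r).Computes u (mulBits u) T}) →
      (n : ℝ) ^ 2 ≤ 2 ^ 24 * (Nat.log 2 n + 1) ^ 2 * T * (Real.logb 2 s + π + 1)) := by
  classical
  exact ⟨fun F _ _ P hs hc => conv_main T π s R P hs hc,
    fun P hs hc => int_main n T π s R P hs hc⟩

end Pool.Agent.Results.MP_22d2c8_lc.ConvolutionStack
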