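import Pool.Agent.W896.HK.Final

/-!
# An explicit function with a truly exponential lower bound for circuits of linear formal degree

Definitions: `Gate`, `Circ`, `Circ.Val`, `IsDeg` in `Pool/Agent/W896/RK/Defs.lean`; `rowOdd`,
`hankel` in `Pool/Agent/W896/HK/Fun.lean`; `word`, `Pos`, `inp`, `px` in
`Pool/Agent/W896/HK/Final.lean`; `PolyTime` in `Pool/Agent/NPC/Defs.lean`.
-/

set_option autoImplicit false

namespace Pool.Agent.Results.MP_22d2c8_lc.FormalDegree

open Pool.Agent.NPC Pool.Agent.W896.RK Pool.Agent.W896.HK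

/-- The function `hankel` is decidable in polynomial time. For all `k` and `n` there are `s` (`2 n`
bits) and `y` (`n` bits) such that for every circuit `U` on the `4 n` bits of `s`, `x` and `y`: if
`U` accepts, for this `s` and `y`, only `x` with `hankel (s, x, y) = 1`, and at least a
`2 ^ (-⌊n / 2 ^ (30 (k + 1))⌋)` fraction of them, and if the formal degrees of `U` in the `n` bits
of `x` sum up to at most `k n`, then `n ≤ 2 ^ (30 (k + 1)) (⌊log₂ g⌋ + 1)`, where `g` is the number
of gates of `U`. -/
theorem result :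
    (∃ V : List Bool → List Bool, PolyTime V ∧ ∀ l, hankel l = true ↔ V l = [true]) ∧
    ∀ k n : ℕ, ∃ (s : Fin (2 * n) → Bool) (y : Fin n → Bool), ∀ U : Circ (Pos n),
      (∀ x, U.Val (inp s x y) U.out → hankel (word s x y) = true) →
      Nat.card {x // hankel (word s x y) = true} ≤
        2 ^ (n / 2 ^ (30 * (k + 1))) * Nat.card {x // U.Val (inp s x y) U.out} →
      (∃ d : U.G → Fin n → ℕ, IsDeg U px d ∧ ∑ j, d U.out j ≤ k * n) →
      n ≤ 2 ^ (30 * (k + 1)) * (Nat.log 2 (Fintype.card U.G) + 1) :=
  ⟨hankel_in_P, final⟩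

end Pool.Agent.Results.MP_22d2c8_lc.FormalDegree
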