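import Pool.Agent.W969.MC.Thr

/-!
Superlinear lower bounds for explicit functions and the number of NOT gates.

By Markov and Fischer every Boolean function of `N` bits with circuits of polynomial size has
circuits of polynomial size with `⌈log₂ (N + 1)⌉` NOT gates (by Beals, Nishino and Tanaka the size
grows from `S` to at most `2 S + O(N log N)`). We consider circuits with `κ` fewer NOT gates for the clique function, which is
in `NP`: does the graph with `n` vertices, given by `N = n (n - 1) / 2` bits, have a clique with `k`
vertices? We show that then the size is at least `2 ^ (2 ^ (κ / (2 + ε)))`, for every `ε > 0`, as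
long as `2 ^ (κ / (2 + ε)) ≤ min (k, √n)` or so. In particular the size is superpolynomial for
circuits with `log₂ N - (2 + ε) log₂ log₂ N` NOT gates, if `log₂ n ≤ k ≤ (n + 1) / 2`.

More precisely, with `l = 2 ^ (κ / (2 + ε))`, the size is at least `l ^ (δ l)`. This holds for real
circuits (the monotone gates are arbitrary nondecreasing real functions of two arguments) with
arbitrary further gates, where `2 ^ (number of NOT gates)` becomes the product of the numbers
(fan-in + 1) over the further gates, the freedom, and for two-sided error with advantage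
`l ^ (-δ)`: a finite nonempty family of circuits such that, for some `p`, a random member accepts
every graph with a clique with `k` vertices with probability at least `p + l ^ (-δ)` and every other
graph with probability at most `p` (`p = 0` and one member for an ordinary circuit).

The proof: an average case version of the approximation method for constraint satisfaction problems
with `l` constraints on sparse expanding hypergraphs, and an embedding of `n ^ 2 / l ^ (2 + ε)`
copies of the problem into one graph, such that they may share vertices and edges, but no edge whose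
presence can change, and such that every large clique belongs to one copy.
-/

namespace Pool.Agent.Results.MP_22d2c8_lc.NegationThreshold

/-- A real circuit with the input bits `Inp` and the gates `0, ..., s - 1`. Gate `i` has `w i`
inputs, namely `a i j`, each an input bit (`0` or `1`) or an earlier gate, and its value on the
input `x` is `val x i`. The gates outside `T` compute nondecreasing functions of at most two real
numbers. The output of a gate `i` in `T` depends in an arbitrary way on the bits that tell whether
`θ i j` is at most the `j`-th input (a NOT gate, for instance). The circuit accepts if the value of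
gate `out` is at least `τ`. -/
structure RealCircuit (Inp : Type) where
  s : ℕ
  T : Finset (Fin s)
  w : Fin s → ℕ
  a : (i : Fin s) → Fin (w i) → Inp ⊕ Fin s
  op : (i : Fin s) → (Fin (w i) → ℝ) → ℝ
  θ : (i : Fin s) → Fin (w i) → ℝ
  val : (Inp → Bool) → Fin s → ℝ
  out : Fin s
  τ : ℝ
  earlier : ∀ i j k, a i j = Sum.inr k → k < i
  mono : ∀ i ∉ T, w i ≤ 2 ∧ Monotone (op i)
  free : ∀ i ∈ T, ∀ z z' : Fin (w i) → ℝ, (∀ j, θ i j ≤ z j ↔ θ i j ≤ z' j) → op i z = op i z'
  spec : ∀ x i, val x i = op i (fun j =>
    Sum.elim (fun p => if x p = true then (1 : ℝ) else 0) (val x) (a i j))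

/-- The circuit accepts the input. -/
def RealCircuit.Accepts {Inp : Type} (C : RealCircuit Inp) (x : Inp → Bool) : Prop :=
  C.τ ≤ C.val x C.out

/-- The size: the number of gates plus the number of inputs of the gates in `T`. -/
def RealCircuit.size {Inp : Type} (C : RealCircuit Inp) : ℕ := C.s + ∑ i ∈ C.T, C.w i

/-- The product of the numbers `w i + 1` over the gates in `T`. It is `1` if `T` is empty and
`2 ^ t` if `T` consists of `t` NOT gates. -/
def RealCircuit.freedom {Inp : Type} (C : RealCircuit Inp) : ℕ := ∏ i ∈ C.T, (C.w i + 1)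

/-- The probability that the input is accepted by a circuit that is chosen uniformly at random from
the family `C`. -/
noncomputable def acceptance {R Inp : Type} (C : R → RealCircuit Inp) (x : Inp → Bool) : ℝ :=
  (Nat.card {ρ : R // (C ρ).Accepts x} : ℝ) / Nat.card R

/-- The input bits: the pairs of vertices. -/
abbrev Pairs (n : ℕ) : Type := {e : Finset (Fin n) // e.card = 2}

/-- The graph on the vertices `0, ..., n - 1` whose edges are the pairs `e` with `x e = true` has a
clique with `k` vertices. -/
def HasClique (n k : ℕ) (x : Pairs n → Bool) : Prop :=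
  ∃ S : Finset (Fin n), S.card = k ∧ ∀ e : Pairs n, e.1 ⊆ S → x e = true

/-- For every `ε > 0` there are `δ > 0` and `l0` such that for all `n`, `k`, `l` with
`l0 ≤ l ≤ k ≤ (n + 1) / 2` and `l ^ (2 + ε) ≤ n` and all real `F`, `p` with
`F ≤ n ^ 2 / l ^ (2 + ε)` the following holds. If a finite nonempty family of real
circuits whose numbers `freedom` are at most `F` accepts every graph with `n` vertices that has a
clique with `k` vertices with probability at least `p + l ^ (-δ)` and all the others with
probability at most `p`, then some member has size at least `l ^ (δ l)`. -/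
theorem result (ε : ℝ) (hε : 0 < ε) :
    ∃ δ : ℝ, 0 < δ ∧ ∃ l0 : ℕ, ∀ n k l : ℕ, l0 ≤ l → l ≤ k → 2 * k ≤ n + 1 →
      (l : ℝ) ^ (2 + ε) ≤ n → ∀ F : ℝ, F ≤ (n : ℝ) ^ 2 / (l : ℝ) ^ (2 + ε) →
      ∀ (R : Type) [Finite R] [Nonempty R] (C : R → RealCircuit (Pairs n)) (p : ℝ),
        (∀ x, HasClique n k x → p + (l : ℝ) ^ (-δ) ≤ acceptance C x) →
        (∀ x, ¬ HasClique n k x → acceptance C x ≤ p) →
        (∀ ρ, ((C ρ).freedom : ℝ) ≤ F) →
        ∃ ρ, (l : ℝ) ^ (δ * l) ≤ ((C ρ).size : ℝ) := by
  obtain ⟨δ, hδ, l0, H⟩ := Pool.Agent.W969.MC.thr_rand 1 le_rfl ε hε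
  refine ⟨δ, hδ, max l0 1, ?_⟩
  intro n k l hl hlk hkn hln F hF R _ _ C p h1 h2 h3
  let _ : Fintype R := Fintype.ofFinite R
  have hR : (0 : ℝ) < Fintype.card R := by exact_mod_cast Fintype.card_pos
  have hl1 : 1 ≤ l := (le_max_right _ _).trans hl
  have hlpos : (0 : ℝ) < l := by exact_mod_cast hl1
  have hacc : ∀ x, acceptance C x * Fintype.card R =
      ({ρ : R | (C ρ).Accepts x}.ncard : ℝ) := by
    intro x
    unfold acceptance
    rw [Nat.card_eq_fintype_card (α := R), div_mul_cancel₀ _ hR.ne']
    rfl
  set C' : R → Pool.Agent.W969.MC.RC (Pairs n) := fun ρ => ⟨(C ρ).s, (C ρ).T, (C ρ).w, (C ρ).a,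
    (C ρ).op, (C ρ).θ, (C ρ).val, (C ρ).out, (C ρ).τ, (C ρ).earlier, (C ρ).mono, (C ρ).free,
    (C ρ).spec⟩ with hC'
  refine H n k l ((le_max_left _ _).trans hl) hlk hkn F ?_ R C' p ?_ ?_ h3
  · rw [pow_one]
    have h4 : (0 : ℝ) < (l : ℝ) ^ (2 + ε) := by positivity
    rw [mul_max_of_nonneg _ _ h4.le]
    refine max_le ?_ ?_
    · rw [le_div_iff₀ h4] at hF
      have h5 : (n : ℝ) ^ (1 + 1) = (n : ℝ) ^ 2 := by norm_num
      rw [h5]
      linarith
    · calc (l : ℝ) ^ (2 + ε) * n ≤ n * n := mul_le_mul_of_nonneg_right hln (Nat.cast_nonneg _)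
        _ = (n : ℝ) ^ (1 + 1) := by ring
  · intro x hx
    refine le_trans (mul_le_mul_of_nonneg_right (h1 x hx) hR.le) (le_of_eq (hacc x))
  · intro x hx
    refine le_trans (le_of_eq (hacc x).symm) (mul_le_mul_of_nonneg_right (h2 x hx) hR.le)

end Pool.Agent.Results.MP_22d2c8_lc.NegationThreshold
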