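import Mathlib
import Pool.Agent.NPC.Defs
import Pool.Agent.H468R2.Frag.WordPoly
import Pool.Agent.W949.Nest.Main

/-!
# Linear-size circuits need sharing that is nested arbitrarily deep

An explicit Boolean function `f`, decidable in polynomial time, such that for all constants `c`,
`r` and `K` there is a constant `E` with the following property for all large `N`. Let `C` be a
fan-in-two circuit (arbitrary gates, possibly with at most `N / E` nondeterministic guess bits)
computing `f` on `N` bits and let `H` be any set of at most `N / E` exceptional gates. Call a gate
global if it lies above more than `K` variables. If

* every directed path of gates avoiding `H` contains at most `r` global gates of fan-out at least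
  two, or
* the gates can be partitioned into modules, each of which reads at most `N / E` sources
  (variables and gates of other modules; the inner structure of a module is arbitrary), such that
  a module with `m` gates has at most `r + m / E` ports (global gates outside `H` which feed other
  modules) and every directed path avoiding `H` contains at most `r` ports,

then `C` has more than `c * N` gates.

So `f` has superlinear complexity in the model of circuits with bounded nesting of shared gates.
Formulas are the case `r = 0`, `H = ∅`; circuits with `o(N)` shared gates, or with `o(N)` shared
global gates, the case `r = 0`; circuits of bounded depth with gates of arbitrary type and fan-in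
up to `N / E` are covered by the second case.

The proof makes the ports local or public level by level. At each level a suitable window of
sizes is chosen by the pigeonhole principle: the few variables seen by modules of medium size are
fixed, the few ports of large modules become public bits, and among the remaining variables a
large subset is chosen such that every small module sees at most one of them. In the end the
circuit is a cheap multi-party protocol (number on the forehead) for a generalised inner product.
The explicit function, its restrictions, the choice of the players and the discrepancy bound are
those of the modules `H468R2.Frag` (by helpers 468, 629, 51, 909, 431, 506).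
-/

namespace Pool.Agent.Results.MP_22d2c8_lc.NestedSharing

open Pool.Agent.H559R2.Sharing Pool.Agent.NPC Pool.Agent.H468R2.Frag Pool.Agent.W949.Nest

theorem result : ∃ f : List Bool → Bool,
    (∃ V : List Bool → List Bool, PolyTime V ∧ ∀ x, f x = true ↔ V x = [true]) ∧
    ∀ c r K : ℕ, ∃ E n₀ : ℕ, 0 < E ∧
      ∀ (N q : ℕ) (C : Circuit N q) (H : Finset (Fin C.size)), n₀ ≤ N →
        C.Computes (fun x => f (List.ofFn x)) → E * q ≤ N → E * H.card ≤ N →
        (SharingDepthLE C H K r ∨ ∃ κ : Fin C.size → ℕ, ModularLE C H κ K r E) →
        c * N < C.size := by
  refine ⟨fun x => gipFun x.length x.get, gipFun_in_P, ?_⟩
  intro c r K
  obtain ⟨E, n₀, hE, h⟩ := main_bound c r K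
  refine ⟨E, n₀, hE, ?_⟩
  intro N q C H hN hC hq hH hdis
  have key : (fun x : Fin N → Bool =>
      gipFun (List.ofFn x).length (List.ofFn x).get) = gipFun N := by
    funext x
    have h : ∀ (M : ℕ) (y : Fin M → Bool) (hM : M = N) (_ : ∀ i : Fin M, y i = x (Fin.cast hM i)),
        gipFun M y = gipFun N x := by
      intro M y hM hy
      subst hM
      congr 1
      funext i
      exact hy i
    refine h _ _ (List.length_ofFn) ?_
    intro i
    simp
    rfl
  have hC' : C.Computes (gipFun N) := by
    rw [← key]
    exact hC
  exact h N q C H hN hC' hq hH hdis

end Pool.Agent.Results.MP_22d2c8_lc.NestedSharing
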