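import Pool.Agent.W950.SC.Fin
import Pool.Agent.W950.SC.NP
import Pool.Agent.W950.SC.Symm

/-!
# A language in NP and the symmetries of its circuits

For every `K ≥ 262144` let `csp K` be the following language. An input of length `n` describes a
binary constraint satisfaction problem with `256` values per variable whose constraint graph is the
Margulis-Gabber-Galil expander with `m ^ 2` vertices, where `m` is the integer part of
`√(n / K)`. Renaming the values of the variables (by an even permutation for every variable) is a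
symmetry of the problem. Let `G` be the group of these renamings, of order at most
`2 ^ (1684 n / K)`. We prove that every circuit with arbitrary gates which computes `csp K` on
inputs of length `n` has size at least `2 ^ (n / (409600 K)) / [G : G ∩ Aut C]`, where
`G ∩ Aut C` is the group of those renamings which extend to an automorphism of the circuit. On the
other hand the circuit can be made `G`-symmetric by taking copies, at the price of the factor `|G|`.
-/

set_option autoImplicit false

namespace Pool.Agent.Results.MP_22d2c8_lc.SymmetricCircuits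

open Finset Equiv Pool.Agent.W893.SY Pool.Agent.W950.SC Pool.Agent.H521R3.BI

set_option exponentiation.threshold 2000 in
theorem fac256 : Nat.factorial 256 ≤ 2 ^ 1684 := by
  norm_num [Nat.factorial]

theorem card_alt : Nat.card (alternatingGroup (Fin 256)) ≤ Nat.factorial 256 := by
  have h3 : Nat.card (alternatingGroup (Fin 256)) ≤ Nat.card (Perm (Fin 256)) :=
    Nat.card_le_card_of_injective _ Subtype.val_injective
  refine h3.trans ?_
  rw [Nat.card_eq_fintype_card, Fintype.card_perm, Fintype.card_fin]

theorem card_group {m n : ℕ} [NeZero m] (e : Idx m (Fin 256) ↪ Fin n) (A : ℕ)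
    (hA : Nat.card (alternatingGroup (Fin 256)) ≤ A) :
    Nat.card (ren e).range ≤ A ^ (m * m) := by
  have h1 : Nat.card (ren e).range ≤ Nat.card (V m → alternatingGroup (Fin 256)) :=
    Nat.card_le_card_of_surjective _ (MonoidHom.rangeRestrict_surjective (ren e))
  refine h1.trans ?_
  have h4 : Nat.card (V m) = m * m := by
    rw [Nat.card_prod, Nat.card_zmod]
  rw [Nat.card_fun, h4]
  exact Nat.pow_le_pow_left hA _

/-- **The symmetries of circuits for a language in NP.** -/
theorem result (K : ℕ) (hK : 262144 ≤ K) :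
    Pool.Agent.NPC.InNP {x : List Bool | csp K x = true} ∧
    ∀ n : ℕ, K ≤ n → ∃ G : Subgroup (Perm (Fin n)),
      (∀ σ, σ ∈ G ↔ IsRenaming K n σ) ∧
      Nat.card G ≤ 2 ^ (1684 * (n / K)) ∧
      (∀ σ ∈ G, ∀ x : Fin n → Bool, csp K (List.ofFn (x ∘ σ)) = csp K (List.ofFn x)) ∧
      ∀ (s : ℕ) (C : Net (Fin n) Bool s),
        (∀ x : Fin n → Bool, C.val x C.out = csp K (List.ofFn x)) →
          (2 : ℝ) ^ ((n : ℝ) / (409600 * K)) ≤ s * (symG C).relIndex G ∧
          ∃ C' : Net (Fin n) Bool (Nat.card G * s + 1),
            (∀ x : Fin n → Bool, C'.val x C'.out = csp K (List.ofFn x)) ∧ G ≤ symG C' := by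
  refine ⟨csp_inNP K hK, fun n hn => ?_⟩
  obtain ⟨m, hm⟩ : ∃ m, side K n = m := ⟨_, rfl⟩
  have hK0 : 0 < K := by omega
  have hq : 1 ≤ n / K := (Nat.one_le_div_iff hK0).2 hn
  have hm1 : 1 ≤ m := by
    rw [← hm, side, Nat.le_sqrt]
    simpa using hq
  have : NeZero m := ⟨by omega⟩
  have hmq : m * m ≤ n / K := by
    rw [← hm]
    exact Nat.sqrt_le _
  have hqm : n / K < (m + 1) * (m + 1) := by
    rw [← hm]
    exact Nat.lt_succ_sqrt _
  have h : 262144 * (m * m) ≤ n := by
    have h2 : m * m * K ≤ n := (Nat.le_div_iff_mul_le hK0).1 hmq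
    nlinarith
  refine ⟨(ren (emb h)).range, fun σ => mem_range_ren h K hm σ,
    ?_, ?_, ?_⟩
  · refine (card_group (emb h) (2 ^ 1684) (card_alt.trans fac256)).trans ?_
    rw [← pow_mul]
    exact Nat.pow_le_pow_right (by norm_num) (Nat.mul_le_mul_left _ hmq)
  · rintro σ ⟨a, rfl⟩ x
    exact csp_ren h K hm x a
  · intro s C hC
    refine ⟨?_, symmetrise _ C (fun x => csp K (List.ofFn x)) ?_ hC⟩
    · set κ := (m * m - 1) / 102400 with hκ
      have hmm : 1 ≤ m * m := Nat.mul_pos hm1 hm1
      have hκ1 : 102400 * κ < m ^ 2 := by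
        have := Nat.mul_div_le (m * m - 1) 102400
        rw [pow_two]
        omega
      have hκ2 : m * m ≤ 102400 * (κ + 1) := by
        have := Nat.lt_mul_div_succ (m * m - 1) (show 0 < 102400 by norm_num)
        omega
      have hlow := lower ed (by rw [Fintype.card_fin]; norm_num) (emb h) C κ hκ1 (by
        intro v
        rw [hC, hC, csp_tw h K hm, csp_zero h K hm]
        simp)
      have hn2 : n < 4 * (m * m) * K := by
        have h3 : n < (n / K + 1) * K := by
          rw [add_mul, one_mul, mul_comm]
          have := Nat.div_add_mod n K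
          have := Nat.mod_lt n hK0
          omega
        have h4 : n / K + 1 ≤ 4 * (m * m) := by nlinarith
        exact h3.trans_le (Nat.mul_le_mul_right _ h4)
      have hn3 : (n : ℝ) / (409600 * K) ≤ ((κ + 1 : ℕ) : ℝ) := by
        have hK' : (0 : ℝ) < K := by exact_mod_cast hK0
        rw [div_le_iff₀ (by positivity)]
        have h5 : (n : ℝ) ≤ 4 * (m * m) * K := by exact_mod_cast hn2.le
        have h6 : ((m : ℝ) * m) ≤ 102400 * ((κ + 1 : ℕ) : ℝ) := by exact_mod_cast hκ2
        calc (n : ℝ) ≤ 4 * (m * m) * K := h5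
          _ ≤ 4 * (102400 * ((κ + 1 : ℕ) : ℝ)) * K := by gcongr
          _ = ((κ + 1 : ℕ) : ℝ) * (409600 * K) := by ring
      calc (2 : ℝ) ^ ((n : ℝ) / (409600 * K)) ≤ (2 : ℝ) ^ (((κ + 1 : ℕ) : ℝ)) :=
            Real.rpow_le_rpow_of_exponent_le (by norm_num) hn3
        _ = ((2 ^ (κ + 1) : ℕ) : ℝ) := by
            rw [Real.rpow_natCast]; push_cast; rfl
        _ ≤ ((s * (symG C).relIndex (ren (emb h)).range : ℕ) : ℝ) := by exact_mod_cast hlow
        _ = _ := by push_cast; rfl
    · rintro σ ⟨a, rfl⟩ x
      exact csp_ren h K hm x a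

end Pool.Agent.Results.MP_22d2c8_lc.SymmetricCircuits
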