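import Pool.Agent.W946.XfCirc

set_option autoImplicit false

/-!
# An explicit linear function needs `(4 - o(1)) n` XOR gates

`XorCircuit`, `Computes`, `additions`, `wires`, `size`, `DigitsDiffer` and `digitParity` are defined
in `Pool.Agent.W946.XfCirc`.
-/

namespace Pool.Agent.Results.MP_22d2c8_lc.XorFourN

open Pool.Agent.W946.Xf

/-- Let `digitParity j` be the length-preserving function on `n = 4 ^ j` bits whose output bit `a`
is the parity of the input bits `b` such that all digits of `b` in base four differ from those of
`a`. For every `δ > 0` and all `j ≥ j₀(δ)`, every circuit of XOR gates of any fan-in (negations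
are free) which computes this function needs `(4 - δ) n` additions of two bits, has
`(6 - δ) n` wires, and the number of its nodes and wires is at least `(8 - δ) n`. -/
theorem result (δ : ℝ) (hδ : 0 < δ) : ∃ j₀ : ℕ, ∀ j : ℕ, j₀ ≤ j → ∀ C : XorCircuit (4 ^ j),
    C.Computes (digitParity j) →
      (4 - δ) * 4 ^ j ≤ C.additions ∧ (6 - δ) * 4 ^ j ≤ C.wires ∧ (8 - δ) * 4 ^ j ≤ C.size :=
  final δ hδ

end Pool.Agent.Results.MP_22d2c8_lc.XorFourN
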